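import Mathlib
import Pool.Agent.Helper84.GM.Lift
import Pool.Graph.R_seed8.Results.MP_54b1e5_al.LiftableSummands

/-!
# Under Martin's axiom every non-zero direct summand of `ℤ^ω₁ / ℤ^{<ω₁}` is isomorphic to it

`I` is a set of cardinality `ℵ₁` and `G` is the group of the functions `I → ℤ` modulo those with
countable support.

Martin's axiom for `ℵ₁` dense sets (in σ-centred posets) gives, for every homomorphism
`Φ : ℤ^I → G` and every countable subgroup `K` of `ℤ^I`, that almost all rows of `Φ` on `K` have
finite support: otherwise a generic series `∑ j! F_j`, `F_j ∈ K`, with finite sums at every point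
of `I`, has an image which is not an integer at uncountably many coordinates. Comparing the rows
for different countable subgroups one gets a row-finite matrix which induces `Φ`. The projection
onto a direct summand is therefore induced by an endomorphism of `ℤ^I`, and for such summands the
theorem is known (`LiftableSummands`).
-/

set_option autoImplicit false

namespace Pool.Agent.Results.MP_54b1e5_al.MartinNegative

open Cardinal
open Pool.Agent.Helper84.GM

/-- The group of the functions `I → ℤ` modulo those with countable support. -/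
abbrev G (I : Type) : Type :=
  (I → ℤ) ⧸ AddSubgroup.closure {f : I → ℤ | (Function.support f).Countable}

/-- Assume Martin's axiom for `ℵ₁` dense sets in σ-centred posets, and let `I` be a set of
cardinality `ℵ₁`.
(1) Every homomorphism from `ℤ^I` to `G I` is induced by an endomorphism of `ℤ^I` given by a matrix
with finitely supported rows.
(2) Every non-zero direct summand of `G I` is isomorphic to `G I`. -/
theorem result (hMA : MAcentered) (I : Type) (hI : #I = ℵ₁) :
    (∀ Φ : (I → ℤ) →+ G I, ∃ c : I → I →₀ ℤ, ∀ f : I → ℤ,
      Φ f = QuotientAddGroup.mk (fun α : I => ∑ x ∈ (c α).support, c α x * f x)) ∧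
    (∀ A B : AddSubgroup (G I), IsCompl A B → A ≠ ⊥ → Nonempty (A ≃+ G I)) := by
  refine ⟨fun Φ => lift Φ hMA hI.le, fun A B hAB hA => ?_⟩
  -- the projection onto `A` along `B`
  have hex : ∀ g : G I, ∃ a ∈ A, g - a ∈ B := by
    intro g
    have hg : g ∈ A ⊔ B := by rw [hAB.sup_eq_top]; trivial
    obtain ⟨a, ha, b, hb, hab⟩ := AddSubgroup.mem_sup.1 hg
    exact ⟨a, ha, by rw [← hab, add_sub_cancel_left]; exact hb⟩
  choose e heA heB using hex
  have huniq : ∀ x : G I, x ∈ A → x ∈ B → x = 0 := by
    intro x h1 h2
    have : x ∈ A ⊓ B := ⟨h1, h2⟩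
    rw [hAB.inf_eq_bot] at this
    exact AddSubgroup.mem_bot.1 this
  have hadd : ∀ g h : G I, e (g + h) = e g + e h := by
    intro g h
    have h1 : e (g + h) - (e g + e h) ∈ A := A.sub_mem (heA _) (A.add_mem (heA _) (heA _))
    have h2 : e (g + h) - (e g + e h) ∈ B := by
      have h3 := B.sub_mem (B.add_mem (heB g) (heB h)) (heB (g + h))
      have h4 : g - e g + (h - e h) - (g + h - e (g + h)) = e (g + h) - (e g + e h) := by abel
      rwa [h4] at h3
    exact sub_eq_zero.1 (huniq _ h1 h2)
  let Φ : (I → ℤ) →+ G I :=
    AddMonoidHom.mk' (fun f => e (QuotientAddGroup.mk f)) (fun f g => by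
      rw [QuotientAddGroup.mk_add]; exact hadd _ _)
  obtain ⟨c, hc⟩ := lift Φ hMA hI.le
  -- the endomorphism of `ℤ^I`
  let φ : (I → ℤ) →+ (I → ℤ) := AddMonoidHom.mk' (fun f => fun α : I => L (c α) f) (by
    intro f g
    funext α
    simp only [L, Pi.add_apply, mul_add, Finset.sum_add_distrib])
  refine Pool.Agent.Results.MP_54b1e5_al.LiftableSummands.result I hI A B hAB hA φ ?_
  intro f
  have h1 : (QuotientAddGroup.mk (φ f) : G I) = e (QuotientAddGroup.mk f) := (hc f).symm
  constructor
  · change (QuotientAddGroup.mk (φ f) : G I) ∈ A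
    rw [h1]; exact heA _
  · change (QuotientAddGroup.mk (f - φ f) : G I) ∈ B
    rw [QuotientAddGroup.mk_sub, h1]; exact heB _

end Pool.Agent.Results.MP_54b1e5_al.MartinNegative
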